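import Pool.Agent.Helper26.Ip.Tools

/-!
# Independent parts of stationary waves: package ETA
-/

set_option autoImplicit false
set_option linter.unusedSectionVars false
open MeasureTheory Filter Topology ProbabilityTheory
open scoped ContDiff ENNReal InnerProductSpace

namespace Pool.Agent.Helper83.Ip

open Pool.Agent.Helper26.Ip
open Complex (I)

noncomputable section

/-- `e^{iu} - 1 - iu` -/
def phi (u : ℝ) : ℂ := Complex.exp (I * (u : ℂ)) - 1 - I * (u : ℂ)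

lemma phi_lip : LipschitzWith 2 phi := by
  refine LipschitzWith.of_dist_le_mul fun u v => ?_
  rw [dist_eq_norm, dist_eq_norm]
  have h1 : phi u - phi v = Complex.exp (I * (v : ℂ)) *
      (Complex.exp (I * ((u - v : ℝ) : ℂ)) - 1) - I * ((u - v : ℝ) : ℂ) := by
    unfold phi
    rw [mul_sub, ← Complex.exp_add]
    have : I * (v : ℂ) + I * ((u - v : ℝ) : ℂ) = I * (u : ℂ) := by push_cast; ring
    rw [this]
    push_cast
    ring
  rw [h1]
  refine (norm_sub_le _ _).trans ?_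
  rw [norm_mul, mul_comm I (v : ℂ), Complex.norm_exp_ofReal_mul_I, one_mul]
  have h2 := Real.norm_exp_I_mul_ofReal_sub_one_le (x := u - v)
  have h3 : ‖I * ((u - v : ℝ) : ℂ)‖ = ‖u - v‖ := by
    rw [norm_mul, Complex.norm_I, one_mul, Complex.norm_real]
  rw [h3]
  have h4 : ((2 : NNReal) : ℝ) = 2 := rfl
  rw [h4]
  linarith

lemma phi_zero : phi 0 = 0 := by simp [phi]

lemma phi_small {u : ℝ} (hu : |u| ≤ 1) : ‖phi u‖ ≤ |u| ^ 2 := by
  have h3 : ‖I * (u : ℂ)‖ = |u| := by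
    rw [norm_mul, Complex.norm_I, one_mul, Complex.norm_real, Real.norm_eq_abs]
  have := Complex.norm_exp_sub_one_sub_id_le (x := I * (u : ℂ)) (by rw [h3]; exact hu)
  rw [h3] at this
  exact this

lemma phi_le (u : ℝ) : ‖phi u‖ ≤ 2 * |u| := by
  have h := phi_lip.dist_le_mul u 0
  rw [phi_zero, dist_zero_right, dist_zero_right] at h
  exact h

section

variable {Ω : Type*} [MeasurableSpace Ω] {μ : Measure Ω}

/-- `φ ∘ b` -/
def Phi (b : Lp ℝ 2 μ) : Lp ℂ 2 μ := phi_lip.compLp phi_zero b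

lemma Phi_coe (b : Lp ℝ 2 μ) : Phi b =ᵐ[μ] fun f => phi (b f) :=
  phi_lip.coeFn_compLp phi_zero b

lemma cs (k : Lp ℝ 2 μ) (g : Lp ℂ 2 μ) : ‖∫ f, (k f : ℂ) * g f ∂μ‖ ≤ ‖k‖ * ‖g‖ := by
  have h1 : ‖∫ f, (k f : ℂ) * g f ∂μ‖ₑ ≤ eLpNorm k 2 μ * eLpNorm g 2 μ := by
    refine (enorm_integral_le_lintegral_enorm _).trans ?_
    have h2 := eLpNorm_smul_le_mul_eLpNorm (p := 2) (q := 2) (r := 1)
      (Lp.aestronglyMeasurable g) (Lp.aestronglyMeasurable k)
    rw [eLpNorm_one_eq_lintegral_enorm] at h2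
    refine le_trans (le_of_eq ?_) h2
    refine lintegral_congr fun f => ?_
    rw [Pi.smul_apply', Complex.real_smul]
  have h3 : (eLpNorm k 2 μ * eLpNorm g 2 μ) ≠ ⊤ :=
    ENNReal.mul_ne_top (Lp.eLpNorm_ne_top k) (Lp.eLpNorm_ne_top g)
  have h4 := ENNReal.toReal_mono h3 h1
  rw [ENNReal.toReal_mul, toReal_enorm] at h4
  rw [Lp.norm_def, Lp.norm_def]
  exact h4

lemma int_mul (k : Lp ℝ 2 μ) (g : Lp ℂ 2 μ) : Integrable (fun f => (k f : ℂ) * g f) μ := by
  have h := (Lp.memLp g).smul (Lp.memLp k) (r := 1)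
  rw [memLp_one_iff_integrable] at h
  refine h.congr (Eventually.of_forall fun f => ?_)
  show k f • g f = _
  rw [Complex.real_smul]

lemma int_mulR (k b : Lp ℝ 2 μ) : Integrable (fun f => k f * b f) μ := by
  have h := (Lp.memLp b).smul (Lp.memLp k) (r := 1)
  rw [memLp_one_iff_integrable] at h
  exact h

lemma csR (k b : Lp ℝ 2 μ) : |∫ f, k f * b f ∂μ| ≤ ‖k‖ * ‖b‖ := by
  have h1 : ∫ f, k f * b f ∂μ = inner ℝ b k := by
    rw [L2.inner_def]
    refine integral_congr_ae (Eventually.of_forall fun f => ?_)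
    simp
  rw [h1, mul_comm]
  exact abs_real_inner_le_norm b k

end

variable {Ω : Type*} [MeasurableSpace Ω] {μ : Measure Ω} [IsProbabilityMeasure μ]

/-- the modulus -/
def eta (b : Lp ℝ 2 μ) : ℝ := ‖Phi b‖ + ‖b‖ * ‖1 - ch b‖

lemma int_one (k : Lp ℝ 2 μ) : Integrable (fun f => k f) μ :=
  (Lp.memLp k).integrable (by norm_num)

lemma ex_eq (b k : Lp ℝ 2 μ) (hk : ∫ f, k f ∂μ = 0) :
    ex b k = (∫ f, (k f : ℂ) * Phi b f ∂μ) +
      I * ((∫ f, k f * b f ∂μ : ℝ) : ℂ) * (1 - ch b) := by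
  have h1 : ∫ f, (k f : ℂ) * Complex.exp (I * ((b f : ℝ) : ℂ)) ∂μ =
      (∫ f, (k f : ℂ) * Phi b f ∂μ) + ((∫ f, k f ∂μ : ℝ) : ℂ) +
        I * ((∫ f, k f * b f ∂μ : ℝ) : ℂ) := by
    have i2 : Integrable (fun f => ((k f : ℝ) : ℂ)) μ := (int_one k).ofReal
    have i3 : Integrable (fun f => I * ((k f * b f : ℝ) : ℂ)) μ :=
      Integrable.const_mul ((int_mulR k b).ofReal) I
    have i1 := int_mul k (Phi b)
    have i4 : Integrable (fun f => (k f : ℂ) * Phi b f + ((k f : ℝ) : ℂ)) μ := i1.add i2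
    rw [← integral_complex_ofReal, ← integral_complex_ofReal, ← integral_const_mul,
      ← integral_add i1 i2, ← integral_add i4 i3]
    refine integral_congr_ae ?_
    filter_upwards [Phi_coe b] with f hf
    rw [hf]
    unfold phi
    push_cast
    ring
  unfold ex
  rw [h1, hk]
  push_cast
  ring

lemma one_sub_ch (b : Lp ℝ 2 μ) : ‖1 - ch b‖ ≤ ‖b‖ := by
  have hi : Integrable (fun f => Complex.exp (I * ((b f : ℝ) : ℂ))) μ := by
    refine Integrable.of_bound (C := 1) ?_ (Eventually.of_forall fun f => ?_)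
    · exact (Complex.continuous_exp.comp_aestronglyMeasurable
        ((Complex.continuous_ofReal.comp_aestronglyMeasurable
          (Lp.aestronglyMeasurable b)).const_mul I))
    · rw [mul_comm, Complex.norm_exp_ofReal_mul_I]
  have h1 : ch b - 1 = ∫ f, (Complex.exp (I * ((b f : ℝ) : ℂ)) - 1) ∂μ := by
    rw [integral_sub hi (integrable_const _)]
    simp [ch]
  rw [norm_sub_rev, h1]
  have h2 : ‖∫ f, (Complex.exp (I * ((b f : ℝ) : ℂ)) - 1) ∂μ‖ ≤ ∫ f, ‖b f‖ ∂μ :=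
    norm_integral_le_of_norm_le (int_one b).norm
      (Eventually.of_forall fun f => Real.norm_exp_I_mul_ofReal_sub_one_le)
  refine h2.trans ?_
  rw [Lp.norm_def, integral_norm_eq_lintegral_enorm (Lp.aestronglyMeasurable b),
    ← eLpNorm_one_eq_lintegral_enorm]
  refine ENNReal.toReal_mono (Lp.eLpNorm_ne_top b) ?_
  exact eLpNorm_le_eLpNorm_of_exponent_le (by norm_num) (Lp.aestronglyMeasurable b)

lemma normsq (g : Lp ℂ 2 μ) : ‖g‖ ^ 2 = ∫ f, ‖g f‖ ^ 2 ∂μ := by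
  have h1 := inner_self_eq_norm_sq_to_K (𝕜 := ℂ) g
  rw [L2.inner_def] at h1
  have h2 : ∀ f, inner ℂ (g f) (g f) = ((‖g f‖ ^ 2 : ℝ) : ℂ) := by
    intro f
    rw [inner_self_eq_norm_sq_to_K]
    simp
  simp_rw [h2] at h1
  rw [integral_complex_ofReal] at h1
  have h3 : ((∫ f, ‖g f‖ ^ 2 ∂μ : ℝ) : ℂ) = ((‖g‖ ^ 2 : ℝ) : ℂ) := by
    rw [h1]
    simp
  exact (Complex.ofReal_injective h3).symm

lemma phi_o (D : Lp ℝ 2 μ) :
    Tendsto (fun h : ℝ => h⁻¹ * ‖Phi (h • D)‖) (𝓝[>] 0) (𝓝 0) := by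
  have h1 : Tendsto (fun h : ℝ => ∫ f, (h⁻¹ * ‖phi (h * D f)‖) ^ 2 ∂μ) (𝓝[>] 0) (𝓝 0) := by
    have h0 : 𝓝 (0 : ℝ) = 𝓝 (∫ _ : Ω, (0 : ℝ) ∂μ) := by simp
    rw [h0]
    refine tendsto_integral_filter_of_dominated_convergence (fun f => 4 * (D f) ^ 2) ?_ ?_ ?_ ?_
    · refine Eventually.of_forall fun h => ?_
      exact ((phi_lip.continuous.comp_aestronglyMeasurable
        ((Lp.aestronglyMeasurable D).const_mul h)).norm.const_mul _).pow 2
    · filter_upwards [self_mem_nhdsWithin] with h hh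
      have hh : 0 < h := hh
      refine Eventually.of_forall fun f => ?_
      rw [Real.norm_of_nonneg (by positivity)]
      have h2 := phi_le (h * D f)
      have h3 : h⁻¹ * ‖phi (h * D f)‖ ≤ 2 * |D f| := by
        rw [inv_mul_le_iff₀ hh]
        rw [abs_mul, abs_of_pos hh] at h2
        linarith
      calc (h⁻¹ * ‖phi (h * D f)‖) ^ 2 ≤ (2 * |D f|) ^ 2 :=
            pow_le_pow_left₀ (by positivity) h3 2
        _ = 4 * (D f) ^ 2 := by rw [mul_pow, sq_abs]; norm_num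
    · exact ((Lp.memLp D).integrable_sq).const_mul 4
    · refine Eventually.of_forall fun f => ?_
      have h5 : Tendsto (fun h : ℝ => (h * (D f) ^ 2) ^ 2) (𝓝[>] 0) (𝓝 0) := by
        have : Tendsto (fun h : ℝ => (h * (D f) ^ 2) ^ 2) (𝓝 0) (𝓝 ((0 * (D f) ^ 2) ^ 2)) :=
          Continuous.tendsto (by fun_prop) 0
        simp only [zero_mul, ne_eq, OfNat.ofNat_ne_zero, not_false_eq_true, zero_pow] at this
        exact this.mono_left nhdsWithin_le_nhds
      refine squeeze_zero' (Eventually.of_forall fun h => by positivity) ?_ h5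
      have h6 : ∀ᶠ h : ℝ in 𝓝[>] 0, |h * D f| ≤ 1 := by
        have : Tendsto (fun h : ℝ => |h * D f|) (𝓝 0) (𝓝 (|0 * D f|)) :=
          Continuous.tendsto (by fun_prop) 0
        simp only [zero_mul, abs_zero] at this
        exact (this.mono_left nhdsWithin_le_nhds).eventually_le_const one_pos
      filter_upwards [self_mem_nhdsWithin, h6] with h hh h7
      have hh : 0 < h := hh
      have h8 := phi_small h7
      refine pow_le_pow_left₀ (by positivity) ?_ 2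
      rw [inv_mul_le_iff₀ hh]
      refine h8.trans (le_of_eq ?_)
      rw [sq_abs]
      ring
  have h2 : Tendsto (fun h : ℝ => (h⁻¹ * ‖Phi (h • D)‖) ^ 2) (𝓝[>] 0) (𝓝 0) := by
    refine h1.congr fun h => ?_
    rw [mul_pow, normsq, ← integral_const_mul]
    refine integral_congr_ae ?_
    filter_upwards [Phi_coe (h • D), Lp.coeFn_smul h D] with f h3 h4
    rw [h3, h4, mul_pow]
    rfl
  have h3 : Tendsto (fun h : ℝ => Real.sqrt ((h⁻¹ * ‖Phi (h • D)‖) ^ 2)) (𝓝[>] 0)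
      (𝓝 (Real.sqrt 0)) := (Real.continuous_sqrt.tendsto 0).comp h2
  rw [Real.sqrt_zero] at h3
  refine h3.congr' ?_
  filter_upwards [self_mem_nhdsWithin] with h hh
  have hh : 0 < h := hh
  exact Real.sqrt_sq (by positivity)

/-- ETA -/
theorem eta_exists : ∃ η : Lp ℝ 2 μ → ℝ,
    (∀ b k : Lp ℝ 2 μ, ∫ f, b f ∂μ = 0 → ∫ f, k f ∂μ = 0 → ‖ex b k‖ ≤ η b * ‖k‖) ∧
    ∀ (b : ℝ → Lp ℝ 2 μ) (D : Lp ℝ 2 μ),
      Tendsto (fun h : ℝ => h⁻¹ • b h) (𝓝[>] 0) (𝓝 D) →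
        Tendsto (fun h : ℝ => h⁻¹ * η (b h)) (𝓝[>] 0) (𝓝 0) := by
  refine ⟨eta, ?_, ?_⟩
  · intro b k _ hk
    rw [ex_eq b k hk]
    refine (norm_add_le _ _).trans ?_
    rw [norm_mul, norm_mul, Complex.norm_I, one_mul, Complex.norm_real, Real.norm_eq_abs]
    have h1 := cs k (Phi b)
    have h2 := csR k b
    have h3 : |∫ f, k f * b f ∂μ| * ‖1 - ch b‖ ≤ ‖k‖ * ‖b‖ * ‖1 - ch b‖ :=
      mul_le_mul_of_nonneg_right h2 (norm_nonneg _)
    unfold eta
    nlinarith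
  · intro b D hb
    have hn : Tendsto (fun h : ℝ => ‖h⁻¹ • b h - D‖) (𝓝[>] 0) (𝓝 0) := by
      have := (hb.sub_const D).norm
      rwa [sub_self, norm_zero] at this
    have hn2 : Tendsto (fun h : ℝ => ‖h⁻¹ • b h‖) (𝓝[>] 0) (𝓝 ‖D‖) := hb.norm
    have hid : Tendsto (fun h : ℝ => h) (𝓝[>] 0) (𝓝 0) :=
      tendsto_id.mono_left nhdsWithin_le_nhds
    have hb0 : Tendsto (fun h : ℝ => h * ‖h⁻¹ • b h‖) (𝓝[>] 0) (𝓝 0) := by
      have := hid.mul hn2
      rwa [zero_mul] at this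
    have h1 : Tendsto (fun h : ℝ => 2 * ‖h⁻¹ • b h - D‖ + h⁻¹ * ‖Phi (h • D)‖ +
        ‖h⁻¹ • b h‖ * (h * ‖h⁻¹ • b h‖)) (𝓝[>] 0) (𝓝 0) := by
      have := ((hn.const_mul 2).add (phi_o D)).add (hn2.mul hb0)
      simpa using this
    refine squeeze_zero' ?_ ?_ h1
    · filter_upwards [self_mem_nhdsWithin] with h hh
      have hh : 0 < h := hh
      unfold eta
      positivity
    · filter_upwards [self_mem_nhdsWithin] with h hh
      have hh : 0 < h := hh
      have h2 : ‖b h‖ = h * ‖h⁻¹ • b h‖ := by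
        rw [norm_smul, norm_inv, Real.norm_of_nonneg hh.le, ← mul_assoc,
          mul_inv_cancel₀ hh.ne', one_mul]
      have h3 : ‖b h - h • D‖ = h * ‖h⁻¹ • b h - D‖ := by
        have : b h - h • D = h • (h⁻¹ • b h - D) := by
          rw [smul_sub, smul_smul, mul_inv_cancel₀ hh.ne', one_smul]
        rw [this, norm_smul, Real.norm_of_nonneg hh.le]
      have h4 : ‖Phi (b h)‖ ≤ 2 * ‖b h - h • D‖ + ‖Phi (h • D)‖ := by
        have h5 : ‖Phi (b h) - Phi (h • D)‖ ≤ 2 * ‖b h - h • D‖ :=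
          phi_lip.norm_compLp_sub_le phi_zero (b h) (h • D)
        have h6 := norm_sub_norm_le (Phi (b h)) (Phi (h • D))
        linarith
      have h7 := one_sub_ch (b h)
      have h8 : ‖b h‖ * ‖1 - ch (b h)‖ ≤ ‖b h‖ * ‖b h‖ :=
        mul_le_mul_of_nonneg_left h7 (norm_nonneg _)
      unfold eta
      rw [inv_mul_le_iff₀ hh]
      rw [h3] at h4
      have h9 : ‖b h‖ * ‖b h‖ = h * (‖h⁻¹ • b h‖ * (h * ‖h⁻¹ • b h‖)) := by
        rw [h2]
        have : ‖h⁻¹ • b h‖ = ‖h⁻¹ • b h‖ := rfl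
        ring_nf
      have h10 : h * (h⁻¹ * ‖Phi (h • D)‖) = ‖Phi (h • D)‖ := by
        rw [← mul_assoc, mul_inv_cancel₀ hh.ne', one_mul]
      rw [mul_add, mul_add, h10, ← h9]
      linarith

end

end Pool.Agent.Helper83.Ip
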